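import Pool.Agent.helper48.AGR.Spec

/-!
# AGR, row FA
-/

set_option autoImplicit false

namespace Pool.Agent.AGR

open Monoid Function

section FAaux

variable {Γ : Type} [Group Γ]

/-- `W v J₁ → W v (J₁ ⊕ K)`. -/
def FA_m (v : Vt →* Γ) (J₁ K : Type) : W v J₁ →* W v (J₁ ⊕ K) :=
  W.lift W.g (fun j => W.y (Sum.inl j)) fun a j => W.comm a (Sum.inl j)

theorem FA_m_g (v : Vt →* Γ) (J₁ K : Type) (γ : Γ) : FA_m v J₁ K (W.g γ) = W.g γ :=
  W.lift_g _ _ _ _

theorem FA_m_y (v : Vt →* Γ) (J₁ K : Type) (j : J₁) :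
    FA_m v J₁ K (W.y j) = W.y (Sum.inl j) :=
  W.lift_y _ _ _ _

/-- M1. -/
def FA_M (v : Vt →* Γ) (J₁ K : Type) :
    W ((W.g : Γ →* W v J₁).comp v) K →* W v (J₁ ⊕ K) :=
  W.lift (FA_m v J₁ K) (fun k => W.y (Sum.inr k)) fun a k => by
    rw [MonoidHom.comp_apply, FA_m_g]
    exact W.comm a (Sum.inr k)

theorem FA_M_g (v : Vt →* Γ) (J₁ K : Type) (x : W v J₁) :
    FA_M v J₁ K (W.g x) = FA_m v J₁ K x :=
  W.lift_g _ _ _ _

theorem FA_M_y (v : Vt →* Γ) (J₁ K : Type) (k : K) :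
    FA_M v J₁ K (W.y k) = W.y (Sum.inr k) :=
  W.lift_y _ _ _ _

/-- M3, the inverse of M1. -/
def FA_N (v : Vt →* Γ) (J₁ K : Type) :
    W v (J₁ ⊕ K) →* W ((W.g : Γ →* W v J₁).comp v) K :=
  W.lift ((W.g : W v J₁ →* W ((W.g : Γ →* W v J₁).comp v) K).comp W.g)
    (Sum.elim (fun j => W.g (W.y j)) W.y) (by
      rintro a (j | k)
      · exact (W.comm (v := v) a j).map (W.g : W v J₁ →* W ((W.g : Γ →* W v J₁).comp v) K)
      · exact W.comm (v := (W.g : Γ →* W v J₁).comp v) a k)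

theorem FA_N_g (v : Vt →* Γ) (J₁ K : Type) (γ : Γ) : FA_N v J₁ K (W.g γ) = W.g (W.g γ) :=
  W.lift_g _ _ _ _

theorem FA_N_y (v : Vt →* Γ) (J₁ K : Type) (x : J₁ ⊕ K) :
    FA_N v J₁ K (W.y x) = Sum.elim (fun j => W.g (W.y j)) W.y x :=
  W.lift_y _ _ _ _

theorem FA_NM (v : Vt →* Γ) (J₁ K : Type) (x : W ((W.g : Γ →* W v J₁).comp v) K) :
    FA_N v J₁ K (FA_M v J₁ K x) = x := by
  have h : (FA_N v J₁ K).comp (FA_M v J₁ K) = MonoidHom.id _ := by
    refine W.hom_ext ?_ ?_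
    · intro x
      rw [MonoidHom.comp_apply, FA_M_g, MonoidHom.id_apply]
      have h2 : (FA_N v J₁ K).comp (FA_m v J₁ K) = W.g := by
        refine W.hom_ext ?_ ?_
        · intro γ
          rw [MonoidHom.comp_apply, FA_m_g, FA_N_g]
        · intro j
          rw [MonoidHom.comp_apply, FA_m_y, FA_N_y, Sum.elim_inl]
      exact DFunLike.congr_fun h2 x
    · intro k
      rw [MonoidHom.comp_apply, FA_M_y, FA_N_y, Sum.elim_inr, MonoidHom.id_apply]
  exact DFunLike.congr_fun h x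

theorem FA_MN (v : Vt →* Γ) (J₁ K : Type) (x : W v (J₁ ⊕ K)) :
    FA_M v J₁ K (FA_N v J₁ K x) = x := by
  have h : (FA_M v J₁ K).comp (FA_N v J₁ K) = MonoidHom.id _ := by
    refine W.hom_ext ?_ ?_
    · intro γ
      rw [MonoidHom.comp_apply, FA_N_g, FA_M_g, FA_m_g, MonoidHom.id_apply]
    · rintro (j | k)
      · rw [MonoidHom.comp_apply, FA_N_y, Sum.elim_inl, FA_M_g, FA_m_y, MonoidHom.id_apply]
      · rw [MonoidHom.comp_apply, FA_N_y, Sum.elim_inr, FA_M_y, MonoidHom.id_apply]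
  exact DFunLike.congr_fun h x

theorem FA_inlinj (H : Type) [Group H] : Injective (MonoidHom.inl Vt H) := by
  intro a b h
  exact congrArg Prod.fst h

/-- M2. -/
theorem FA_M2 (hSA : SA_stmt) (v : Vt →* Γ) (hv : Injective v) (A B : Type) (s : A → B)
    (hs : Injective s) : ∃ M : W v A →* W v B, Injective M ∧ (∀ γ, M (W.g γ) = W.g γ) ∧
      ∀ a, M (W.y a) = W.y (s a) := by
  have hr : Injective ((MonoidHom.id Vt).prodMap (FreeGroup.map s)) := by
    rintro ⟨a, u⟩ ⟨b, u'⟩ h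
    have h1 : a = b := congrArg Prod.fst h
    have h2 : FreeGroup.map s u = FreeGroup.map s u' := congrArg Prod.snd h
    rw [h1, FreeGroup.map_injective hs h2]
  let M : W v A →* W v B := lift (inl : Γ →* W v B)
    ((inr : Vt × FreeGroup B →* W v B).comp ((MonoidHom.id Vt).prodMap (FreeGroup.map s)))
    (fun c => by
      rw [MonoidHom.comp_apply]
      have e1 : ((MonoidHom.id Vt).prodMap (FreeGroup.map s)) (MonoidHom.inl Vt (FreeGroup A) c) =
          MonoidHom.inl Vt (FreeGroup B) c := by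
        simp [MonoidHom.prodMap]
      rw [e1]
      exact glue c)
  have hl : ∀ x, M (inl x) = inl (MonoidHom.id Γ x) := fun x => lift_inl _ _ _ x
  have hr' : ∀ x, M (inr x) = inr (((MonoidHom.id Vt).prodMap (FreeGroup.map s)) x) :=
    fun x => lift_inr _ _ _ x
  refine ⟨M, ?_, fun γ => hl γ, ?_⟩
  · exact hSA Γ (Vt × FreeGroup B) Vt Γ (Vt × FreeGroup A) v (MonoidHom.inl Vt (FreeGroup B)) v
      (MonoidHom.inl Vt (FreeGroup A)) (MonoidHom.id Γ)
      ((MonoidHom.id Vt).prodMap (FreeGroup.map s)) hv (FA_inlinj _)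
      (fun a b h => h) hr (fun _ => rfl) (fun c => by simp [MonoidHom.prodMap]) M hl hr'
  · intro a
    rw [W.y, hr']
    simp [MonoidHom.prodMap, W.y]

/-- M4. -/
theorem FA_M4 (hSA : SA_stmt) {L X : Type} [Group L] [Group X] (v : Vt →* L) (w : Vt →* X)
    (l : L →* X) (hw : Injective w) (hl : Injective l) (hlv : ∀ a, l (v a) = w a) (J : Type) :
    ∃ M : W v J →* W w J, Injective M ∧ (∀ γ, M (W.g γ) = W.g (l γ)) ∧
      ∀ j, M (W.y j) = W.y j := by
  let M : W v J →* W w J := lift ((inl : X →* W w J).comp l) (inr : Vt × FreeGroup J →* W w J)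
    (fun c => by
      rw [MonoidHom.comp_apply, hlv]
      exact glue c)
  have h1 : ∀ x, M (inl x) = inl (l x) := fun x => lift_inl _ _ _ x
  have h2 : ∀ x, M (inr x) = inr (MonoidHom.id _ x) := fun x => lift_inr _ _ _ x
  refine ⟨M, ?_, fun γ => h1 γ, fun j => h2 _⟩
  exact hSA X (Vt × FreeGroup J) Vt L (Vt × FreeGroup J) w (MonoidHom.inl Vt (FreeGroup J)) v
    (MonoidHom.inl Vt (FreeGroup J)) l (MonoidHom.id _) hw (FA_inlinj _) hl (fun a b h => h)
    hlv (fun _ => rfl) M h1 h2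

end FAaux

theorem FA (hSA : SA_stmt) : FA_stmt := by
  intro Γ X _ _ v w r I J J₁ K e hv hr hrv he s hs F hF hFg
  obtain ⟨hc, hinj⟩ := he
  have hw : Injective w := fun a b h => hv (hr (by rw [hrv, hrv, h]))
  obtain ⟨M2, h2i, h2g, h2y⟩ := FA_M2 hSA v hv _ _ s hs
  obtain ⟨M4, h4i, h4g, h4y⟩ := FA_M4 hSA ((W.g : Γ →* W v I).comp v) w (W.lift r e hc) hw hinj
    (fun a => by rw [MonoidHom.comp_apply, W.lift_g, hrv]) J
  have hM1 : Injective (FA_M v J₁ K) := fun x y h => by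
    rw [← FA_NM v J₁ K x, h, FA_NM]
  have hM3 : Injective (FA_N v I J) := fun x y h => by
    rw [← FA_MN v I J x, h, FA_MN]
  let Θ : W ((W.g : Γ →* W v J₁).comp v) K →* W w J :=
    F.comp (M4.comp ((FA_N v I J).comp (M2.comp (FA_M v J₁ K))))
  have hΘ : ∀ x, Θ x = F (M4 (FA_N v I J (M2 (FA_M v J₁ K x)))) := fun x => rfl
  have hΘi : Injective Θ := fun x y h => hM1 (h2i (hM3 (h4i (hF h))))
  have key : ∀ x : I ⊕ J, M4 (FA_N v I J (W.y x)) = Sum.elim (fun i => W.g (e i)) W.y x := by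
    rintro (i | j)
    · rw [FA_N_y, Sum.elim_inl, Sum.elim_inl, h4g, W.lift_y]
    · rw [FA_N_y, Sum.elim_inr, Sum.elim_inr, h4y]
  have hgv : Injective ((W.g : Γ →* W v J₁).comp v) :=
    (inl_injective hv (FA_inlinj _)).comp hv
  have hWg : Injective (W.g : W v J₁ →* W ((W.g : Γ →* W v J₁).comp v) K) :=
    inl_injective hgv (FA_inlinj _)
  have hyk : ∀ k : K, Θ (W.y k) = F (Sum.elim (fun i => W.g (e i)) W.y (s (Sum.inr k))) := by
    intro k
    rw [hΘ, FA_M_y, h2y, key]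
  refine ⟨Θ.comp W.g, hΘi.comp hWg, ?_, ?_, ?_⟩
  · intro γ
    rw [MonoidHom.comp_apply, hΘ, FA_M_g, FA_m_g, h2g, FA_N_g, h4g, W.lift_g, hFg]
  · intro j
    rw [MonoidHom.comp_apply, hΘ, FA_M_g, FA_m_y, h2y, key]
  · have hcomm : ∀ (a : Vt) (k : K), Commute
        ((Θ.comp W.g) (((W.g : Γ →* W v J₁).comp v) a))
        (F (Sum.elim (fun i => W.g (e i)) W.y (s (Sum.inr k)))) := by
      intro a k
      rw [← hyk]
      exact (W.comm (v := (W.g : Γ →* W v J₁).comp v) a k).map Θ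
    refine ⟨hcomm, ?_⟩
    have heq : W.lift (v := (W.g : Γ →* W v J₁).comp v) (Θ.comp W.g)
        (fun k => F (Sum.elim (fun i => W.g (e i)) W.y (s (Sum.inr k)))) hcomm = Θ := by
      refine W.hom_ext ?_ ?_
      · intro x
        rw [W.lift_g, MonoidHom.comp_apply]
      · intro k
        rw [W.lift_y, hyk]
    rw [heq]
    exact hΘi

end Pool.Agent.AGR
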